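import Pool.Agent.Lib.MP_73cdf8_lc.One.Sym

/-! Cubic monomials in the variables as moments of a cut. -/

set_option autoImplicit false

noncomputable section

namespace Pool.Agent.Lib.MP_73cdf8_lc.One

open Polynomial Finset

/-- The block length. -/
def ell (n : ℕ) : ℕ := 3 * (n * n * n) + 1

/-- The exponent attached to position `f`. -/
def ex (n f : ℕ) : ℕ := 2 * (5 * ell n) + 1 + 4 * f

/-- The exponent that carries the monomial with indices `a`, `b`, `c`. -/
def cpos (n a b c : ℕ) : ℕ :=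
  3 * (2 * (5 * ell n) + 1) + 4 * (4 * ell n + (a + n * (b + n * c)))

/-- How often variable `i` occurs at exponent `m`. -/
def wt (n m i : ℕ) : ℤ :=
  (if m = ex n i then 1 else 0) + (if m = ex n (ell n + n * i) then 1 else 0) +
    (if m = ex n (3 * ell n + n * n * i) then 1 else 0)

/-- The prescribed value at exponent `m`. -/
def pm (n : ℕ) (v : ℕ → ℝ) (m : ℕ) : ℝ := ∑ i ∈ range n, (wt n m i : ℝ) * v i

/-- The variables placed with step `s`. -/
def vp (n s : ℕ) (v : ℕ → ℝ) : ℝ[X] := ∑ i ∈ range n, C (v i) * X ^ (s * i)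

/-- Three copies of the variables. -/
def up (n : ℕ) (v : ℕ → ℝ) : ℝ[X] :=
  vp n 1 v + X ^ ell n * vp n n v + X ^ (3 * ell n) * vp n (n * n) v

lemma le_cube {n i : ℕ} (h : i < n) : n ≤ n * n ∧ n * n ≤ n * n * n :=
  ⟨Nat.le_mul_of_pos_left _ (by omega), Nat.le_mul_of_pos_right _ (by omega)⟩

lemma vp_natDegree {n s : ℕ} (hs : s ≤ n * n) (v : ℕ → ℝ) : (vp n s v).natDegree ≤ n * n * n :=
  natDegree_sum_le_of_forall_le _ _ fun _ hi => (natDegree_C_mul_X_pow_le _ _).trans
    (Nat.mul_le_mul hs (mem_range.1 hi).le)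

lemma digit {n i a x y : ℕ} (hi : i < n) (ha : a < n) (h : a + n * y = i + n * x) :
    a = i ∧ y = x := by
  have h1 := congrArg (· % n) h
  simp only [Nat.add_mul_mod_self_left, Nat.mod_eq_of_lt hi, Nat.mod_eq_of_lt ha] at h1
  subst h1
  exact ⟨rfl, Nat.eq_of_mul_eq_mul_left (by omega) (Nat.add_left_cancel h)⟩

lemma digit_lt {n a b c : ℕ} (ha : a < n) (hb : b < n) (hc : c < n) :
    a + n * (b + n * c) < n * n * n := by
  have h1 : n * (c + 1) ≤ n * n := Nat.mul_le_mul_left _ hc
  have h2 : n * (b + n * c + 1) ≤ n * (n * n) := Nat.mul_le_mul_left _ (by linarith)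
  linarith

lemma triple {n a b c : ℕ} (ha : a < n) (hb : b < n) (hc : c < n) (v : ℕ → ℝ) :
    (vp n 1 v * vp n n v * vp n (n * n) v).coeff (a + n * (b + n * c)) = v a * v b * v c := by
  have e : vp n 1 v * vp n n v * vp n (n * n) v = ∑ i ∈ range n, ∑ j ∈ range n,
      ∑ k ∈ range n, C (v i * v j * v k) * X ^ (i + n * (j + n * k)) := by
    rw [vp, vp, vp, sum_mul_sum, sum_mul]
    refine sum_congr rfl fun i _ => ?_
    rw [sum_mul_sum]
    refine sum_congr rfl fun j _ => sum_congr rfl fun k _ => ?_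
    rw [C_mul, C_mul]
    ring
  simp only [e, finsetSum_coeff, coeff_C_mul_X_pow]
  rw [sum_eq_single_of_mem a (mem_range.2 ha), sum_eq_single_of_mem b (mem_range.2 hb),
    sum_eq_single_of_mem c (mem_range.2 hc), if_pos rfl]
  · intro k _ hk
    exact if_neg fun h => hk (digit hb hb (digit ha ha h).2).2.symm
  · intro j hj hk
    exact sum_eq_zero fun k _ => if_neg fun h =>
      hk (digit (mem_range.1 hj) hb (digit ha ha h).2).1.symm
  · intro i hi hk
    exact sum_eq_zero fun j _ => sum_eq_zero fun k _ => if_neg fun h =>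
      hk (digit (mem_range.1 hi) ha h).1.symm

lemma cube_coeff {n a b c : ℕ} (ha : a < n) (hb : b < n) (hc : c < n) (v : ℕ → ℝ) :
    (up n v ^ 3).coeff (4 * ell n + (a + n * (b + n * c))) = 6 * (v a * v b * v c) := by
  obtain ⟨h1, h2⟩ := le_cube ha
  have hf := digit_lt ha hb hc
  have hL : ell n = 3 * (n * n * n) + 1 := rfl
  have d1 := vp_natDegree (n := n) (s := 1) (by omega) v
  have d2 := vp_natDegree (n := n) h1 v
  have d3 := vp_natDegree (n := n) le_rfl v
  rw [← triple ha hb hc, up]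
  generalize vp n 1 v = P at *
  generalize vp n n v = Q at *
  generalize vp n (n * n) v = R at *
  generalize a + n * (b + n * c) = f at *
  have low : ∀ j ≤ 3, ∀ A B D : ℝ[X], A.natDegree ≤ n * n * n → B.natDegree ≤ n * n * n →
      D.natDegree ≤ n * n * n → (X ^ (j * ell n) * (A * B * D)).coeff (4 * ell n + f) = 0 := by
    intro j hj A B D hA hB hD
    have e1 : j * ell n ≤ 3 * ell n := Nat.mul_le_mul_right _ hj
    have e2 : (A * B * D).natDegree ≤ _ :=
      natDegree_mul_le.trans (add_le_add (natDegree_mul_le.trans (add_le_add hA hB)) hD)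
    rw [coeff_X_pow_mul', if_pos (by omega)]
    exact coeff_eq_zero_of_natDegree_lt (by omega)
  have e : (P + X ^ ell n * Q + X ^ (3 * ell n) * R) ^ 3 =
      X ^ (0 * ell n) * (P * P * P) + 3 * (X ^ (1 * ell n) * (P * P * Q)) +
      3 * (X ^ (2 * ell n) * (P * Q * Q)) + X ^ (3 * ell n) * (Q * Q * Q) +
      3 * (X ^ (3 * ell n) * (P * P * R)) + 6 * (X ^ (4 * ell n) * (P * Q * R)) +
      X ^ (5 * ell n) * (3 * Q * Q * R + 3 * X ^ ell n * P * R * R +
        3 * X ^ (2 * ell n) * Q * R * R + X ^ (4 * ell n) * R * R * R) := by ring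
  simp only [e, coeff_add, coeff_ofNat_mul]
  rw [low 0 (by omega) _ _ _ d1 d1 d1, low 1 (by omega) _ _ _ d1 d1 d2,
    low 2 (by omega) _ _ _ d1 d2 d2, low 3 le_rfl _ _ _ d2 d2 d2, low 3 le_rfl _ _ _ d1 d1 d3,
    coeff_X_pow_mul' _ (5 * ell n), if_neg (by omega), add_comm (4 * ell n) f, coeff_X_pow_mul]
  ring

lemma place (n j s m : ℕ) (v : ℕ → ℝ) :
    (X ^ (2 * (5 * ell n) + 1) * expand ℝ 4 (X ^ j * vp n s v)).coeff m =
      ∑ i ∈ range n, (if m = ex n (j + s * i) then 1 else 0) * v i := by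
  have e : X ^ (2 * (5 * ell n) + 1) * expand ℝ 4 (X ^ j * vp n s v) =
      ∑ i ∈ range n, C (v i) * X ^ ex n (j + s * i) := by
    simp only [vp, mul_sum, map_sum, map_mul, map_pow, expand_X, expand_C, ex]
    exact sum_congr rfl fun i _ => by ring
  simp only [e, finsetSum_coeff, coeff_C_mul_X_pow, ite_mul, one_mul, zero_mul]

lemma coeff_up (n m : ℕ) (v : ℕ → ℝ) :
    (X ^ (2 * (5 * ell n) + 1) * expand ℝ 4 (up n v)).coeff m = pm n v m := by
  have h0 := place n 0 1 m v
  rw [pow_zero, one_mul] at h0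
  rw [up, map_add, map_add, mul_add, mul_add, coeff_add, coeff_add, h0, place, place, pm,
    ← sum_add_distrib, ← sum_add_distrib]
  refine sum_congr rfl fun i _ => ?_
  rw [wt, zero_add, one_mul]
  push_cast
  ring

lemma pm_free {n a : ℕ} (ha : a < n) (v : ℕ → ℝ) : pm n v (ex n a) = v a := by
  obtain ⟨h1, h2⟩ := le_cube ha
  have hL : ell n = 3 * (n * n * n) + 1 := rfl
  have e : ∀ i, wt n (ex n a) i = if i = a then 1 else 0 := fun i => by
    rw [wt, if_neg (c := _ = ex n (ell n + n * i)) (by unfold ex; omega),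
      if_neg (c := _ = ex n (3 * ell n + n * n * i)) (by unfold ex; omega), add_zero, add_zero]
    exact if_congr (by unfold ex; omega) rfl rfl
  rw [pm, sum_eq_single_of_mem a (mem_range.2 ha) fun i _ hi => by simp [e, hi]]
  simp [e]

lemma pm_low {n m : ℕ} (hm : m ≤ 1) (v : ℕ → ℝ) : pm n v m = 0 := by
  have hL : ell n = 3 * (n * n * n) + 1 := rfl
  refine sum_eq_zero fun i _ => ?_
  rw [wt, if_neg (by unfold ex; omega), if_neg (by unfold ex; omega), if_neg (by unfold ex; omega)]
  simp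

/-- Prescribed low moments make the variables nonzero and the cubic monomials moments. -/
lemma cubic {n : ℕ} (c : ℕ → ℝ) (v : ℕ → ℝ)
    (h : ∀ e ≤ 6 * (5 * ell n) + 2, bb (3 * (5 * ell n)) c e = pm n v e) :
    (∃ i < n, v i ≠ 0) ∧ ∀ a < n, ∀ b < n, ∀ d < n,
      bb (3 * (5 * ell n)) c (cpos n a b d) = 2 * (v a * v b * v d) := by
  obtain ⟨h1, h2⟩ := cube_mom (5 * ell n) c (up n v) fun e he => by rw [h e he, coeff_up]
  refine ⟨?_, fun a ha b hb d hd => ?_⟩
  · by_contra hv
    push Not at hv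
    have : ∀ s, vp n s v = 0 := fun s => sum_eq_zero fun i hi => by simp [hv i (mem_range.1 hi)]
    exact h1 (by simp [up, this])
  · have hf := digit_lt ha hb hd
    have hL : ell n = 3 * (n * n * n) + 1 := rfl
    have := h2 (4 * ell n + (a + n * (b + n * d))) (by omega)
    rw [cube_coeff ha hb hd] at this
    unfold cpos
    linarith

end Pool.Agent.Lib.MP_73cdf8_lc.One
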