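import Pool.Agent.Lib.MP_73cdf8_lc.Defs
import Pool.Agent.Lib.MP_fcccf2_gt.Lower

/-! With as many cuts as agents a consensus halving exists. -/

set_option autoImplicit false

namespace Pool.Agent.Lib.MP_73cdf8_lc.One

open Finset

lemma merge (t : ℕ → ℝ) (ht : ∀ j, t j ≤ t (j + 1)) (ε : ℕ → ℝ) (hε : ∀ j, ε j = 1 ∨ ε j = -1)
    (k : ℕ) : ∃ (x : ℕ → ℝ) (η : ℝ), (η = 1 ∨ η = -1) ∧ x 0 = t 0 ∧ x (k + 1) = t (k + 1) ∧
      (∀ j ≤ k, x j ≤ x (j + 1)) ∧ ∀ F : ℝ → ℝ,
        ∑ j ∈ range (k + 1), ε j * (F (t (j + 1)) - F (t j)) =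
          η * ∑ j ∈ range (k + 1), (-1) ^ j * (F (x (j + 1)) - F (x j)) := by
  induction k with
  | zero => exact ⟨t, ε 0, hε 0, rfl, rfl, fun j _ => ht j, fun F => by simp⟩
  | succ k ih =>
    obtain ⟨x, η, h1, h2, h3, h4, h5⟩ := ih
    by_cases hc : ε (k + 1) = η * (-1) ^ (k + 1)
    · refine ⟨fun j => if j ≤ k + 1 then x j else t (k + 1 + 1), η, h1, by simpa using h2,
        by simp, fun j hj => ?_, fun F => ?_⟩
      · simp only [if_pos hj]
        split_ifs with h
        · exact h4 j (by omega)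
        · rw [show j = k + 1 by omega, h3]
          exact ht _
      · rw [sum_range_succ, h5, sum_range_succ _ (k + 1), mul_add, hc]
        simp only [le_refl, if_true, Nat.not_succ_le_self, if_false, h3]
        rw [mul_assoc]
        congr 2
        refine sum_congr rfl fun j hj => ?_
        have := mem_range.1 hj
        rw [if_pos (by omega), if_pos (by omega)]
    · have hc' : ε (k + 1) = η * (-1) ^ k := by
        rw [pow_succ] at hc
        rcases neg_one_pow_eq_or ℝ k with e | e <;> rcases h1 with rfl | rfl <;>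
          rcases hε (k + 1) with e' | e' <;> simp_all
      refine ⟨fun j => if j ≤ k then x j else t (k + 1 + 1), η, h1, by simpa using h2,
        by simp, fun j hj => ?_, fun F => ?_⟩
      · dsimp only
        split_ifs with a b b
        · exact h4 j a
        · have := h4 j a
          rw [show j + 1 = k + 1 by omega, h3] at this
          exact this.trans (ht _)
        · omega
        · exact le_rfl
      · have e : ∑ j ∈ range k, (-1 : ℝ) ^ j * (F (if j + 1 ≤ k then x (j + 1) else t (k + 1 + 1))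
            - F (if j ≤ k then x j else t (k + 1 + 1))) =
            ∑ j ∈ range k, (-1) ^ j * (F (x (j + 1)) - F (x j)) := by
          refine sum_congr rfl fun j hj => ?_
          have := mem_range.1 hj
          rw [if_pos (by omega), if_pos (by omega)]
        rw [sum_range_succ, h5, sum_range_succ _ (k + 1), sum_range_succ, sum_range_succ, e, hc',
          h3]
        simp only [le_refl, if_true, Nat.not_succ_le_self, if_false,
          show ¬k + 1 + 1 ≤ k by omega]
        ring

lemma side_alt (F : ℝ → ℝ) (k : ℕ) (x : ℕ → ℝ) : sideValue F k x 0 - sideValue F k x 1 =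
    ∑ j ∈ range (k + 1), (-1) ^ j * (F (x (j + 1)) - F (x j)) := by
  simp only [sideValue, sum_filter, ← sum_sub_distrib]
  refine sum_congr rfl fun j _ => ?_
  rcases Nat.even_or_odd j with h | h
  · simp [h.neg_one_pow, Nat.even_iff.1 h]
  · simp [h.neg_one_pow, Nat.odd_iff.1 h]

theorem hobby {k : ℕ} (hk : 0 < k) (F : Fin k → ℝ → ℝ) (hF : ∀ i, Continuous (F i)) :
    ∃ x : ℕ → ℝ, IsCut k x ∧ ∀ i, sideValue (F i) k x 0 = sideValue (F i) k x 1 := by
  obtain ⟨Y, hY⟩ : ∃ Y : EuclideanSpace ℝ (Fin (k + 1)) → ℕ → ℝ,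
      Y = fun y j => if h : j < k + 1 then y ⟨j, h⟩ else 0 := ⟨_, rfl⟩
  have hc : ∀ j, Continuous fun y => Y y j := fun j => by
    rw [hY]
    by_cases h : j < k + 1
    · simp only [dif_pos h]
      fun_prop
    · simp only [dif_neg h]
      exact continuous_const
  have hn : ∀ y j, Y (-y) j = -Y y j := fun y j => by
    rw [hY]
    by_cases h : j < k + 1 <;> simp [h]
  obtain ⟨y, hy, h0⟩ := Pool.Agent.Lib.MP_fcccf2_gt.borsuk_ulam k k hk le_rfl
    (fun y i => ∑ j ∈ range (k + 1), (F i (∑ l ∈ range j, Y y l ^ 2 + max (Y y j) 0 ^ 2) -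
      F i (∑ l ∈ range j, Y y l ^ 2 + max (-Y y j) 0 ^ 2)))
    (Continuous.continuousOn (continuous_pi fun i => by
      have := hF i
      fun_prop))
    (fun y => by
      funext i
      simp only [hn, neg_neg, neg_sq, Pi.neg_apply, ← sum_neg_distrib, neg_sub])
  obtain ⟨x, η, h1, h2, h3, h4, h5⟩ := merge (fun j => ∑ l ∈ range j, Y y l ^ 2)
    (fun j => by rw [sum_range_succ]; exact le_add_of_nonneg_right (sq_nonneg _))
    (fun j => if 0 ≤ Y y j then 1 else -1) (fun j => by split_ifs <;> simp) k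
  refine ⟨x, ⟨by simpa using h2, ?_, h4⟩, fun i => ?_⟩
  · have e := EuclideanSpace.real_norm_sq_eq y
    rw [hy, one_pow] at e
    rw [h3, ← Fin.sum_univ_eq_sum_range (fun l => Y y l ^ 2), e, hY]
    exact sum_congr rfl fun l _ => by simp only [dif_pos l.2]
  · have h6 : ∑ j ∈ range (k + 1), (if 0 ≤ Y y j then (1 : ℝ) else -1) *
        (F i (∑ l ∈ range (j + 1), Y y l ^ 2) - F i (∑ l ∈ range j, Y y l ^ 2)) = 0 := by
      refine Eq.trans (sum_congr rfl fun j _ => ?_) (congrFun h0 i)
      rw [sum_range_succ]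
      split_ifs with h
      · rw [max_eq_left h, max_eq_right (by linarith)]
        simp
      · rw [max_eq_right (by linarith), max_eq_left (by linarith)]
        simp
    rw [h5, ← side_alt] at h6
    rcases h1 with rfl | rfl <;> linarith

end Pool.Agent.Lib.MP_73cdf8_lc.One
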