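import Pool.Agent.Lib.MP_73cdf8_lc.One.Enc
import Pool.Agent.Lib.MP_73cdf8_lc.One.Hobby
import Pool.Agent.Lib.MP_73cdf8_lc.Main

/-! The reduction with one cut fewer than agents. -/

set_option autoImplicit false
set_option linter.unusedSectionVars false

namespace Pool.Agent.Lib.MP_73cdf8_lc.One

open Finset Pool.Agent.Lib.MP_acf5a6_lc N487b59b3

/-- The cubic part of the condition at exponent `m`. -/
def cub (n : ℕ) (E : List QF) (m : ℕ) : Lin :=
  E.flatMap fun q => q.flatMap fun t => q.map fun s =>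
    (if m = ex n s.2.1 then t.1 * s.1 else 0, cpos n t.2.1 t.2.2 s.2.2)

/-- The linear condition at exponent `m`. -/
def cnd (n : ℕ) (E : List QF) (m : ℕ) : Lin :=
  ((1 : ℤ), m) :: (((List.range n).map fun i => (-wt n m i, ex n i)) ++ cub n E m)

lemma linVal_append (l l' : Lin) (b : ℕ → ℝ) : linVal (l ++ l') b = linVal l b + linVal l' b := by
  simp [linVal]

lemma linVal_flatMap {α : Type} (l : List α) (f : α → Lin) (b : ℕ → ℝ) :
    linVal (l.flatMap f) b = (l.map fun a => linVal (f a) b).sum := by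
  induction l with
  | nil => simp [linVal]
  | cons a l ih => rw [List.flatMap_cons, linVal_append, ih, List.map_cons, List.sum_cons]

lemma linVal_cnd (n : ℕ) (E : List QF) (m : ℕ) (b : ℕ → ℝ) :
    linVal (cnd n E m) b = b m - pm n (fun i => b (ex n i)) m + linVal (cub n E m) b := by
  have e : linVal (cnd n E m) b = b m +
      linVal (((List.range n).map fun i => (-wt n m i, ex n i)) ++ cub n E m) b := by
    simp [cnd, linVal]
  rw [e, linVal_append, pm, linVal, List.map_map, sum_range_list]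
  simp only [Function.comp_def, Int.cast_neg, neg_mul, sum_neg_distrib]
  ring

lemma cub_zero {n m : ℕ} {E : List QF} (hE : Bdd n E) (hm : ∀ i < n, m ≠ ex n i) (b : ℕ → ℝ) :
    linVal (cub n E m) b = 0 := by
  refine List.sum_eq_zero fun z hz => ?_
  simp only [cub, List.mem_map, List.mem_flatMap] at hz
  obtain ⟨_, ⟨q, hq, t, -, s, hs, rfl⟩, rfl⟩ := hz
  simp [hm _ (hE q hq s hs).1]

lemma cub_val {n : ℕ} {E : List QF} (hE : Bdd n E) (m : ℕ) {b v : ℕ → ℝ}
    (h : ∀ a < n, ∀ c < n, ∀ d < n, b (cpos n a c d) = 2 * (v a * v c * v d)) :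
    linVal (cub n E m) b =
      (E.map fun q => 2 * ev q v v * ev q (fun i => if m = ex n i then 1 else 0) v).sum := by
  rw [cub, linVal_flatMap]
  refine list_sum_congr fun q hq => ?_
  rw [linVal_flatMap, mul_right_comm, ev.eq_1 q v, ← List.sum_map_mul_left]
  refine list_sum_congr fun t ht => ?_
  rw [linVal, List.map_map, mul_right_comm, ev, ← List.sum_map_mul_left]
  refine list_sum_congr fun s hs => ?_
  simp only [Function.comp_def]
  rw [h _ (hE q hq t ht).1 _ (hE q hq t ht).2 _ (hE q hq s hs).2]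
  split_ifs
  · push_cast
    ring
  · simp

lemma ev_basis {n : ℕ} {q : QF} (hq : ∀ t ∈ q, t.2.1 < n) (v w : ℕ → ℝ) :
    ∑ a ∈ range n, v a * ev q (fun i => if ex n a = ex n i then 1 else 0) w = ev q v w := by
  induction q with
  | nil => simp
  | cons t q ih =>
    simp only [ev_cons, mul_add, sum_add_distrib]
    rw [ih fun s hs => hq s (List.mem_cons_of_mem _ hs),
      sum_eq_single_of_mem _ (mem_range.2 (hq t List.mem_cons_self)) fun a _ ha => by
        rw [if_neg (by unfold ex; omega)]; ring, if_pos rfl]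
    ring

lemma sum_sq {n : ℕ} {E : List QF} (hE : Bdd n E) (v : ℕ → ℝ) :
    ∑ a ∈ range n, v a * (E.map fun q =>
      2 * ev q v v * ev q (fun i => if ex n a = ex n i then 1 else 0) v).sum =
      (E.map fun q => 2 * ev q v v * ev q v v).sum := by
  induction E with
  | nil => simp
  | cons q E ih =>
    simp only [List.map_cons, List.sum_cons, mul_add, sum_add_distrib]
    rw [ih fun s hs => hE s (List.mem_cons_of_mem _ hs)]
    congr 1
    have := ev_basis (fun t ht => (hE q List.mem_cons_self t ht).1) v v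
    generalize ev q v v = z at this ⊢
    rw [show 2 * z * z = 2 * z * ∑ a ∈ range n, v a *
      ev q (fun i => if ex n a = ex n i then 1 else 0) v by rw [this], mul_sum]
    exact sum_congr rfl fun a _ => by ring

/-- The conditions on the moments. -/
def Cnd (n : ℕ) (E : List QF) (b : ℕ → ℝ) : Prop :=
  b 1 = 0 ∧ ∀ e < 6 * (5 * ell n) + 1, linVal (cnd n E (e + 2)) b = 0

theorem sound1 {n : ℕ} {E : List QF} (hE : Bdd n E) (c : ℕ → ℝ)
    (h : Cnd n E (bb (3 * (5 * ell n)) c)) : Proj n E := by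
  have hL : ell n = 3 * (n * n * n) + 1 := rfl
  have hb0 : bb (3 * (5 * ell n)) c 0 = 0 := by simp [bb]
  obtain ⟨v, hv⟩ : ∃ v : ℕ → ℝ, v = fun i => bb (3 * (5 * ell n)) c (ex n i) := ⟨_, rfl⟩
  have h3 : ∀ m, 2 ≤ m → m ≤ 6 * (5 * ell n) + 2 → bb (3 * (5 * ell n)) c m - pm n v m +
      linVal (cub n E m) (bb (3 * (5 * ell n)) c) = 0 := fun m a b => by
    have := h.2 (m - 2) (by omega)
    rwa [Nat.sub_add_cancel a, linVal_cnd, ← hv] at this
  obtain ⟨h1, h2⟩ := cubic c v fun e he => by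
    by_cases a : ∃ i < n, e = ex n i
    · obtain ⟨i, hi, rfl⟩ := a
      rw [pm_free hi, hv]
    · push Not at a
      rcases Nat.lt_or_ge e 2 with b | b
      · rw [pm_low (by omega)]
        interval_cases e
        exacts [hb0, h.1]
      · have := h3 e b he
        rw [cub_zero hE a] at this
        linarith
  refine ⟨v, h1, fun q hq => ?_⟩
  have h4 : (E.map fun q => 2 * ev q v v * ev q v v).sum = 0 := by
    rw [← sum_sq hE]
    refine sum_eq_zero fun a ha => ?_
    obtain ⟨k1, k2⟩ := le_cube (mem_range.1 ha)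
    have k3 := mem_range.1 ha
    have := h3 (ex n a) (by unfold ex; omega) (by unfold ex; omega)
    rw [pm_free k3, cub_val hE _ h2, show bb _ c (ex n a) = v a by rw [hv], sub_self,
      zero_add] at this
    rw [this, mul_zero]
  have h5 := List.all_zero_of_le_zero_le_of_sum_eq_zero (fun z hz => by
    obtain ⟨p, -, rfl⟩ := List.mem_map.1 hz
    nlinarith [mul_self_nonneg (ev p v v)]) h4 (List.mem_map.2 ⟨q, hq, rfl⟩)
  exact mul_self_eq_zero.1 (by linarith)

lemma side_mom (r : ℕ) (x : ℕ → ℝ) (h0 : x 0 = 0) (h1 : x (2 * r + 2) = 1) (α β : ℝ) (m k : ℕ) :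
    sideValue (fun z => α * tch m (1 - 2 * z) + β * tch k (1 - 2 * z)) (2 * r + 1) x 0 -
      sideValue (fun z => α * tch m (1 - 2 * z) + β * tch k (1 - 2 * z)) (2 * r + 1) x 1 =
      α * mom r (fun j => 1 - 2 * x j) m + β * mom r (fun j => 1 - 2 * x j) k := by
  have a3 : ∀ j, tch j (1 - 2 * 0) = 1 := fun j => by simp [tch]
  have a4 : ∀ j, tch j (1 - 2 * 1) = (-1) ^ j := fun j => by norm_num [tch]
  rw [side_diff, h0, h1]
  simp only [sum_add_distrib, ← mul_sum, a3, a4, mom]
  ring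

theorem complete1 {n : ℕ} {E : List QF} (hE : Bdd n E) (h : Proj n E) :
    ∃ x, IsCut (2 * (3 * (5 * ell n)) + 1) x ∧
      Cnd n E (bb (3 * (5 * ell n)) fun j => 1 - 2 * x j) := by
  have hL : ell n = 3 * (n * n * n) + 1 := rfl
  obtain ⟨v, ⟨a, ha, hv⟩, hq⟩ := h
  obtain ⟨k1, k2⟩ := le_cube ha
  obtain ⟨g, hg⟩ : ∃ g : ℕ → ℕ, g = fun i => if i + 1 < ex n a then i + 1 else i + 2 := ⟨_, rfl⟩
  obtain ⟨x, hx, h1⟩ := hobby (k := 2 * (3 * (5 * ell n)) + 1) (Nat.succ_pos _)
    (fun i z => -v a / (2 * g i) * tch (g i) (1 - 2 * z) +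
      pm n v (g i) / (2 * ex n a) * tch (ex n a) (1 - 2 * z))
    (fun i => by unfold tch; fun_prop)
  obtain ⟨b, hb⟩ : ∃ b, b = bb (3 * (5 * ell n)) fun j => 1 - 2 * x j := ⟨_, rfl⟩
  have h2 : ∀ i < 2 * (3 * (5 * ell n)) + 1, v a * b (g i) = pm n v (g i) * b (ex n a) := by
    intro i hi
    have := sub_eq_zero.2 (h1 ⟨i, hi⟩)
    rw [side_mom _ x hx.1 hx.2.1] at this
    simp only [hb, bb]
    linear_combination this
  obtain ⟨w, hw⟩ : ∃ w : ℕ → ℝ, w = fun i => b (ex n a) / v a * v i := ⟨_, rfl⟩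
  have h3 : ∀ e ≤ 6 * (5 * ell n) + 2, b e = pm n w e := by
    intro e he
    have e1 : pm n w e = b (ex n a) / v a * pm n v e := by
      rw [pm, pm, mul_sum, hw]
      exact sum_congr rfl fun i _ => by ring
    have e2 : 2 ≤ ex n a := by unfold ex; omega
    have e3 : ex n a ≤ 6 * (5 * ell n) := by unfold ex; omega
    rcases lt_trichotomy e (ex n a) with c | rfl | c
    · rcases e with _ | e
      · rw [pm_low (by omega), hb]
        simp [bb]
      · have := h2 e (by omega)
        rw [show g e = e + 1 by rw [hg]; exact if_pos c] at this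
        rw [e1]
        field_simp
        linarith
    · rw [e1, pm_free ha]
      field_simp
    · have := h2 (e - 2) (by omega)
      rw [show g (e - 2) = e by rw [hg]; exact (if_neg (by omega)).trans (by omega)] at this
      rw [e1]
      field_simp
      linarith
  obtain ⟨-, h4⟩ := cubic (fun j => 1 - 2 * x j) w (hb ▸ h3)
  rw [← hb] at h4
  refine ⟨x, hx, hb ▸ ⟨by rw [h3 1 (by omega), pm_low le_rfl], fun e he => ?_⟩⟩
  have e1 : pm n (fun i => b (ex n i)) (e + 2) = pm n w (e + 2) :=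
    sum_congr rfl fun i hi => by
      have := mem_range.1 hi
      simp only [h3 (ex n i) (by unfold ex; omega), pm_free this]
  rw [linVal_cnd, e1, h3 _ (by omega), sub_self, zero_add, cub_val hE _ h4]
  refine List.sum_eq_zero fun z hz => ?_
  obtain ⟨q, hq', rfl⟩ := List.mem_map.1 hz
  rw [show ev q w w = 0 by rw [hw, ev_smul, hq q hq', mul_zero], mul_zero, zero_mul]

lemma cnd_bdd {n m : ℕ} {E : List QF} (hE : Bdd n E) (hm : m ≤ 6 * (5 * ell n) + 2) :
    ∀ t ∈ cnd n E m, t.2 < 10 * (5 * ell n) + 5 := by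
  have hL : ell n = 3 * (n * n * n) + 1 := rfl
  intro t ht
  simp only [cnd, cub, List.mem_cons, List.mem_append, List.mem_map, List.mem_flatMap,
    List.mem_range] at ht
  rcases ht with rfl | ⟨i, hi, rfl⟩ | ⟨q, hq, t, ht, s, hs, rfl⟩
  · show m < _
    omega
  · obtain ⟨k1, k2⟩ := le_cube hi
    show ex n i < _
    unfold ex
    omega
  · have := digit_lt (hE q hq t ht).1 (hE q hq t ht).2 (hE q hq s hs).2
    show cpos n _ _ _ < _
    unfold cpos
    omega

/-- The instance with one cut fewer than agents. -/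
def inst1 (n : ℕ) (E : List QF) : List (List ℚ) × ℕ :=
  ([0, 1] :: (List.range (6 * (5 * ell n) + 1)).map fun e =>
    monoOf (10 * (5 * ell n) + 5) (cnd n E (e + 2)), 2 * (3 * (5 * ell n)) + 1)

theorem inst1_length (n : ℕ) (E : List QF) : (inst1 n E).1.length = (inst1 n E).2 + 1 := by
  simp only [inst1, List.length_cons, List.length_map, List.length_range]
  ring

theorem inst1_mono (n : ℕ) (E : List QF) :
    ∀ c ∈ (inst1 n E).1, StrictMonoOn (polyFun c) (Set.Icc 0 1) := by
  intro c hc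
  rcases List.mem_cons.mp hc with rfl | hc
  · intro x _ y _ h
    rwa [polyFun_id, polyFun_id]
  · obtain ⟨l, -, rfl⟩ := List.mem_map.mp hc
    exact monoOf_strictMono (by omega) _

lemma inst1_side {n : ℕ} {E : List QF} (hE : Bdd n E) {x : ℕ → ℝ}
    (hx : IsCut (2 * (3 * (5 * ell n)) + 1) x) :
    (∀ c ∈ (inst1 n E).1, sideValue (polyFun c) (2 * (3 * (5 * ell n)) + 1) x 0 =
      sideValue (polyFun c) (2 * (3 * (5 * ell n)) + 1) x 1) ↔
      Cnd n E (bb (3 * (5 * ell n)) fun j => 1 - 2 * x j) := by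
  have e := side_mom (3 * (5 * ell n)) x hx.1 hx.2.1 (-1 / 2) (1 / 2) 1 0
  have e1 : (fun z : ℝ => -1 / 2 * tch 1 (1 - 2 * z) + 1 / 2 * tch 0 (1 - 2 * z)) =
      polyFun [0, 1] := funext fun z => by rw [tch_one, tch_zero, polyFun_id]; ring
  have e2 : mom (3 * (5 * ell n)) (fun j => 1 - 2 * x j) 0 = 0 := by
    simp [mom, tch_zero]
    ring
  rw [e1, e2] at e
  simp only [inst1, List.forall_mem_cons, List.forall_mem_map, List.mem_range, Cnd,
    side_mono (show 1 < 10 * (5 * ell n) + 5 by omega)]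
  refine and_congr_right_iff.2 (fun h0 => forall₂_congr fun m hm => ?_) |>.trans
    (and_congr_left' ?_)
  · rw [h0, add_left_inj]
    exact side_iff (cnd_bdd hE (by omega)) _ x hx.1 hx.2.1
  · rw [← sub_eq_zero, e, bb]
    constructor <;> intro h <;> push_cast at h ⊢ <;> linarith

theorem inst1_iff {n : ℕ} {E : List QF} (hE : Bdd n E) :
    PolyCH (bitEncode (inst1 n E)) = true ↔ Proj n E := by
  simp only [PolyCH, decide_eq_true_eq, bitEncode_injective.eq_iff]
  constructor
  · rintro ⟨Fs, k, h, x, h0, hx⟩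
    obtain ⟨rfl, rfl⟩ := Prod.mk.inj h
    exact sound1 hE _ ((inst1_side hE h0).1 hx)
  · intro h
    obtain ⟨x, h0, hx⟩ := complete1 hE h
    exact ⟨_, _, rfl, x, h0, (inst1_side hE h0).2 hx⟩

section pt

variable {α : Type} [N487b59b3 α]

/-- The block length in unary. -/
def ellU (u : Un) : Un := ((Un.mk 3).mul ((u.mul u).mul u)).add ⟨1⟩

@[fun_prop] theorem PT_ellU {u : α → Un} (hu : PT u) : PT (fun a => ellU (u a)) := by
  unfold ellU; fun_prop

@[fun_prop] theorem PT_ell {n : α → ℕ} (hn : PT n) : PT (fun a => ell (n a)) := by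
  unfold ell; fun_prop

@[fun_prop] theorem PT_ex {n f : α → ℕ} (hn : PT n) (hf : PT f) :
    PT (fun a => ex (n a) (f a)) := by
  unfold ex; fun_prop

@[fun_prop] theorem PT_cpos {n i j k : α → ℕ} (hn : PT n) (hi : PT i) (hj : PT j) (hk : PT k) :
    PT (fun a => cpos (n a) (i a) (j a) (k a)) := by
  unfold cpos; fun_prop

@[fun_prop] theorem PT_wt {n m i : α → ℕ} (hn : PT n) (hm : PT m) (hi : PT i) :
    PT (fun a => wt (n a) (m a) (i a)) := by
  unfold wt; fun_prop

@[fun_prop] theorem PT_cub {n m : α → ℕ} {E : α → List QF} (hn : PT n) (hE : PT E) (hm : PT m) :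
    PT (fun a => cub (n a) (E a) (m a)) := by
  unfold cub; fun_prop

theorem PT_cnd {u : α → Un} {m : α → ℕ} {E : α → List QF} (hu : PT u) (hE : PT E) (hm : PT m) :
    PT (fun a => cnd (u a).n (E a) (m a)) := by
  unfold cnd; fun_prop

theorem PT_inst1 {u : α → Un} {E : α → List QF} (hu : PT u) (hE : PT E) :
    PT (fun a => inst1 (u a).n (E a)) := by
  have h4 : PT (fun a => List.range (6 * (5 * ell (u a).n) + 1)) :=
    PT.range' (u := fun a => ((Un.mk 6).mul ((Un.mk 5).mul (ellU (u a)))).add ⟨1⟩) (by fun_prop)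
  have h5 : PT (fun x : α × ℕ =>
      monoOf (10 * (5 * ell (u x.1).n) + 5) (cnd (u x.1).n (E x.1) (x.2 + 2))) :=
    PT_monoOf (u := fun x : α × ℕ => ((Un.mk 10).mul ((Un.mk 5).mul (ellU (u x.1)))).add ⟨5⟩)
      (by fun_prop) (PT_cnd (by fun_prop) (by fun_prop) (by fun_prop))
  exact PT.prodMk (PT.cons (PT.const _) (PT.map h5 h4)) (by fun_prop)

end pt

/-- The reduction. -/
def red1 (ts : List (ℕ × ℤ)) : List (List ℚ) × ℕ :=
  inst1 (redM ts).n (hom (redN ts).n (redK ts).n (system ts))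

theorem red1_PT : PT red1 := by
  have h0 := PT.system'
  have h1 : PT redN := by unfold redN; fun_prop
  have h2 : PT redK := by unfold redK; fun_prop
  have h3 : PT redM := by unfold redM; fun_prop
  exact PT_inst1 h3 (PT.hom' h1 h2 h0)

theorem red1_iff (ts : List (ℕ × ℤ)) :
    ETR (bitEncode ts) = true ↔ PolyCH (bitEncode (red1 ts)) = true := by
  have h1 : Bdd (redN ts).n (system ts) := system_bdd ts
  have h2 : Bdd (redM ts).n (hom (redN ts).n (redK ts).n (system ts)) := hom_bdd h1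
  rw [etr_enc, red1, inst1_iff h2, ← system_iff]
  exact aff_iff_proj (Nat.succ_pos _) h1 (lt_two_pow_sz _).le rfl

theorem etr_le_one : ∃ g : List Bool → List Bool, PT g ∧ (∀ s, ETR s = PolyCH (g s)) ∧
    ∀ s, ∃ ts, g s = bitEncode (red1 ts) := by
  obtain ⟨F, hF, h1, h2⟩ := (Chk.nat.prod Chk.int).list.parse red1_PT (red1 [])
  refine ⟨fun s => (toRaw (F ⟨s⟩)).s, PT.rawBits (PT.toRaw' (PT.comp hF (PT.rawMk PT.id'))),
    fun s => ?_, fun s => ?_⟩
  · by_cases hs : ∃ a : List (ℕ × ℤ), bitEncode a = s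
    · obtain ⟨a, rfl⟩ := hs
      have := h1 a
      simp only [toRaw] at this ⊢
      rw [this]
      exact Bool.eq_iff_iff.2 (red1_iff a)
    · have := h2 ⟨s⟩ hs
      simp only [toRaw]
      rw [this, Bool.eq_iff_iff, ← red1_iff, etr_enc]
      constructor
      · intro h
        simp only [ETR, decide_eq_true_eq] at h
        obtain ⟨φ, h, -⟩ := h
        exact absurd ⟨_, h.symm⟩ hs
      · rintro ⟨φ, h, -⟩
        have := (wf_iff []).2 ⟨φ, h⟩
        simp [wf] at this
  · by_cases hs : ∃ a : List (ℕ × ℤ), bitEncode a = s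
    · obtain ⟨a, rfl⟩ := hs
      exact ⟨a, congrArg bitEncode (h1 a)⟩
    · exact ⟨[], congrArg bitEncode (h2 ⟨s⟩ hs)⟩

theorem hard1 (L : N68a2faeb.DecisionProblem) (h : N793a5b8e.ManyOneReducible L ExTheory) :
    ∃ f : List Bool → List Bool, N68a2faeb.IsPolyTime f ∧ (∀ s, L s = PolyCH (f s)) ∧
      ∀ s, ∃ (Fs : List (List ℚ)) (k : ℕ), f s = bitEncode (Fs, k) ∧ Fs.length = k + 1 ∧
        ∀ c ∈ Fs, StrictMonoOn (polyFun c) (Set.Icc 0 1) := by
  obtain ⟨f, hf, hf'⟩ := h
  obtain ⟨g, hg, g1, g2⟩ := etr_le_one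
  refine ⟨fun s => g (f s), (PT.comp hg (PT_of_isPolyTime hf)).isPolyTime,
    fun s => by rw [hf', exTheory_eq, g1], fun s => ?_⟩
  obtain ⟨ts, h⟩ := g2 (f s)
  exact ⟨_, _, h, inst1_length _ _, inst1_mono _ _⟩

end Pool.Agent.Lib.MP_73cdf8_lc.One
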