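import Pool.Agent.Lib.MP_73cdf8_lc.Encode

/-! A symmetry of the low moments extends to the whole rational function; cubic terms. -/

set_option autoImplicit false

noncomputable section

namespace Pool.Agent.Lib.MP_73cdf8_lc.One

open Polynomial

section field

variable {K : Type} [Field K]

lemma rot_natDegree (ω : K) {D : ℕ} {P : K[X]} (hP : P.natDegree ≤ D) :
    (P.comp (C ω * X)).natDegree ≤ D := by
  rw [natDegree_le_iff_coeff_eq_zero] at hP ⊢
  intro j hj
  rw [comp_C_mul_X_coeff, hP j hj, zero_mul]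

lemma rot_reflect {ω : K} (hω : ω ≠ 0) {D : ℕ} {P : K[X]} (hP : P.natDegree ≤ D) :
    reflect D (P.comp (C ω * X)) = C (ω ^ D) * (reflect D P).comp (C ω⁻¹ * X) := by
  ext j
  rw [coeff_reflect, coeff_C_mul, comp_C_mul_X_coeff, comp_C_mul_X_coeff, coeff_reflect]
  by_cases hj : j ≤ D
  · rw [revAt_le hj, pow_sub₀ _ hω hj, inv_pow]
    ring
  · rw [revAt_eq_self_of_lt (by omega), coeff_eq_zero_of_natDegree_lt (by omega)]
    ring

lemma rot_coe (ω : K) (P : K[X]) :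
    ((P.comp (C ω * X) : K[X]) : PowerSeries K) = PowerSeries.rescale ω (P : PowerSeries K) := by
  ext j
  rw [Polynomial.coeff_coe, comp_C_mul_X_coeff, PowerSeries.coeff_rescale, Polynomial.coeff_coe,
    mul_comm]

lemma rot_cross {A S : K[X]} {B : PowerSeries K} (hB : (A : PowerSeries K) * B = S) (ω τ : K) :
    ((S.comp (C ω * X) * A - C τ * S * A.comp (C ω * X) : K[X]) : PowerSeries K) =
      (A : PowerSeries K) * PowerSeries.rescale ω (A : PowerSeries K) *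
        (PowerSeries.rescale ω B - PowerSeries.C τ * B) := by
  rw [Polynomial.coe_sub, Polynomial.coe_mul, Polynomial.coe_mul, Polynomial.coe_mul, rot_coe,
    rot_coe, Polynomial.coe_C, ← hB, map_mul]
  ring

lemma rot_low {A S : K[X]} {B : PowerSeries K} (hB : (A : PowerSeries K) * B = S) {D : ℕ}
    {ω τ : K} (h : ∀ e ≤ D, PowerSeries.coeff e B ≠ 0 → ω ^ e = τ) {j : ℕ} (hj : j ≤ D) :
    (S.comp (C ω * X) * A - C τ * S * A.comp (C ω * X)).coeff j = 0 := by
  have h1 : (PowerSeries.X : PowerSeries K) ^ (D + 1) ∣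
      PowerSeries.rescale ω B - PowerSeries.C τ * B := by
    rw [PowerSeries.X_pow_dvd_iff]
    intro e he
    rw [map_sub, PowerSeries.coeff_rescale, PowerSeries.coeff_C_mul]
    by_cases h0 : PowerSeries.coeff e B = 0
    · rw [h0, mul_zero, mul_zero, sub_zero]
    · rw [h e (by omega) h0, sub_self]
  rw [← Polynomial.coeff_coe, rot_cross hB]
  exact PowerSeries.X_pow_dvd_iff.1 (h1.mul_left _) j (by omega)

lemma sym {A S : K[X]} {B : PowerSeries K} {D : ℕ} {ω τ : K} (hω : ω ≠ 0) (hτ : τ ≠ 0)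
    (hA : A.natDegree ≤ D) (hA0 : A.coeff 0 = 1) (hS : reflect D A = S)
    (hB : (A : PowerSeries K) * B = S) (h : ∀ e ≤ D, PowerSeries.coeff e B ≠ 0 → ω ^ e = τ)
    (e : ℕ) : ω ^ e * PowerSeries.coeff e B = τ * PowerSeries.coeff e B := by
  have hSd : S.natDegree ≤ D := hS ▸ natDegree_reflect_le.trans (max_le le_rfl hA)
  have hS' : reflect D S = A := by rw [← hS, reflect_reflect]
  have h' : ∀ e ≤ D, PowerSeries.coeff e B ≠ 0 → ω⁻¹ ^ e = τ⁻¹ := fun e he h0 => by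
    rw [inv_pow, h e he h0]
  have hττ : (C τ : K[X]) * C τ⁻¹ = 1 := by rw [← C_mul, mul_inv_cancel₀ hτ, C_1]
  have hr : reflect (D + D) (S.comp (C ω * X) * A - C τ * S * A.comp (C ω * X)) =
      C (-(τ * ω ^ D)) * (S.comp (C ω⁻¹ * X) * A - C τ⁻¹ * S * A.comp (C ω⁻¹ * X)) := by
    rw [reflect_sub, mul_assoc, reflect_C_mul, reflect_mul _ _ (rot_natDegree ω hSd) hA,
      reflect_mul _ _ hSd (rot_natDegree ω hA), rot_reflect hω hSd, rot_reflect hω hA, hS, hS',
      C_neg, C_mul]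
    linear_combination (-(C (ω ^ D) * S * A.comp (C ω⁻¹ * X))) * hττ
  have hd : (S.comp (C ω * X) * A - C τ * S * A.comp (C ω * X)).natDegree ≤ D + D :=
    (natDegree_sub_le _ _).trans (max_le
      (natDegree_mul_le.trans (add_le_add (rot_natDegree ω hSd) hA))
      (natDegree_mul_le.trans (add_le_add ((natDegree_C_mul_le _ _).trans hSd)
        (rot_natDegree ω hA))))
  have hz : S.comp (C ω * X) * A - C τ * S * A.comp (C ω * X) = 0 := by
    ext j
    rw [coeff_zero]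
    by_cases h1 : j ≤ D
    · exact rot_low hB h h1
    · by_cases h2 : j ≤ D + D
      · have h3 := congrArg (fun p => p.coeff (D + D - j)) hr
        simp only [coeff_reflect, coeff_C_mul] at h3
        rw [rot_low hB h' (by omega), mul_zero, revAt_le (by omega),
          show D + D - (D + D - j) = j by omega] at h3
        exact h3
      · exact coeff_eq_zero_of_natDegree_lt (by omega)
  have h4 := rot_cross hB ω τ
  rw [hz, Polynomial.coe_zero] at h4
  have a1 : (A : PowerSeries K) ≠ 0 := fun h0 => by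
    have := congrArg (PowerSeries.coeff 0) h0
    simp [hA0] at this
  have a2 : PowerSeries.rescale ω (A : PowerSeries K) ≠ 0 := fun h0 => by
    have := congrArg (PowerSeries.coeff 0) h0
    simp [hA0] at this
  have h5 := congrArg (PowerSeries.coeff e)
    ((mul_eq_zero.1 h4.symm).resolve_left (mul_ne_zero a1 a2))
  rwa [map_sub, PowerSeries.coeff_rescale, PowerSeries.coeff_C_mul, map_zero, sub_eq_zero] at h5

end field

lemma sym4 {A S : ℝ[X]} {B : PowerSeries ℝ} {D M : ℕ} (hA : A.natDegree ≤ D)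
    (hA0 : A.coeff 0 = 1) (hS : reflect D A = S) (hB : (A : PowerSeries ℝ) * B = S)
    (h : ∀ e ≤ D, PowerSeries.coeff e B ≠ 0 → e % 4 = M % 4) {e : ℕ} (he : e % 4 ≠ M % 4) :
    PowerSeries.coeff e B = 0 := by
  have h1 := sym (A := A.map Complex.ofRealHom) (S := S.map Complex.ofRealHom)
    (B := PowerSeries.map Complex.ofRealHom B) (D := D) (τ := Complex.I ^ M) Complex.I_ne_zero
    (pow_ne_zero _ Complex.I_ne_zero) (natDegree_map_le.trans hA) (by simp [hA0])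
    (by rw [reflect_map, hS])
    (by rw [Polynomial.polynomial_map_coe, Polynomial.polynomial_map_coe, ← map_mul, hB])
    (fun j hj h0 => by
      rw [Complex.I_pow_eq_pow_mod, h j hj (by simpa using h0), ← Complex.I_pow_eq_pow_mod]) e
  by_contra h0
  have h2 := mul_right_cancel₀ (by simpa using h0) h1
  rw [Complex.I_pow_eq_pow_mod e, Complex.I_pow_eq_pow_mod M] at h2
  exact he (Complex.isPrimitiveRoot_I.pow_inj (Nat.mod_lt _ (by norm_num))
    (Nat.mod_lt _ (by norm_num)) h2)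

section series

open PowerSeries

lemma artanh5 {H B : ℝ⟦X⟧} {a : ℕ} (hH : constantCoeff H = 0) (hB0 : constantCoeff B = 0)
    (key : d⁄dX ℝ H * (1 - B ^ 2) = d⁄dX ℝ B) (hd : (PowerSeries.X : ℝ⟦X⟧) ^ (a + 1) ∣ H) :
    (PowerSeries.X : ℝ⟦X⟧) ^ (a + 1) ∣ B ∧ (PowerSeries.X : ℝ⟦X⟧) ^ (3 * a + 2 + 1) ∣ H - B ∧
      (PowerSeries.X : ℝ⟦X⟧) ^ (5 * a + 4 + 1) ∣ H + H + H - (B + B + B) - B * B * B := by
  have h1 := X_pow_dvd_deriv hd
  have h2 : (PowerSeries.X : ℝ⟦X⟧) ^ (a + 1) ∣ B :=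
    X_pow_succ_dvd_of_deriv hB0 (key ▸ h1.mul_right _)
  refine ⟨h2, X_pow_succ_dvd_of_deriv (by simp [hH, hB0]) ?_,
    X_pow_succ_dvd_of_deriv (by simp [hH, hB0]) ?_⟩
  · have e : d⁄dX ℝ (H - B) = d⁄dX ℝ H * (B * B) := by
      rw [map_sub]
      linear_combination key
    rw [e, show (PowerSeries.X : ℝ⟦X⟧) ^ (3 * a + 2) =
      PowerSeries.X ^ a * (PowerSeries.X ^ (a + 1) * PowerSeries.X ^ (a + 1)) by ring]
    exact mul_dvd_mul h1 (mul_dvd_mul h2 h2)
  · have e : d⁄dX ℝ (H + H + H - (B + B + B) - B * B * B) =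
        d⁄dX ℝ H * (B * B * (B * B)) * 3 := by
      simp only [map_sub, map_add, Derivation.leibniz, smul_eq_mul]
      linear_combination (3 * (1 + B ^ 2)) * key
    rw [e, show (PowerSeries.X : ℝ⟦X⟧) ^ (5 * a + 4) =
      PowerSeries.X ^ a * (PowerSeries.X ^ (a + 1) * PowerSeries.X ^ (a + 1) *
        (PowerSeries.X ^ (a + 1) * PowerSeries.X ^ (a + 1))) by ring]
    exact (mul_dvd_mul h1 (mul_dvd_mul (mul_dvd_mul h2 h2) (mul_dvd_mul h2 h2))).mul_right _

lemma exists_quot (r : ℕ) (c : ℕ → ℝ) : ∃ (A S : ℝ[X]) (B : ℝ⟦X⟧), A.natDegree ≤ 2 * r + 2 ∧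
    A.coeff 0 = 1 ∧ reflect (2 * r + 2) A = S ∧ (A : ℝ⟦X⟧) * B = S ∧ constantCoeff B = 0 ∧
    d⁄dX ℝ (PowerSeries.mk (bb r c)) * (1 - B ^ 2) = d⁄dX ℝ B := by
  obtain ⟨n1, n2, n3⟩ := polN_facts r c
  obtain ⟨d1, d2, d3⟩ := polD_facts r c
  have h := gen_eq r c
  generalize polN r c = N at *
  generalize polD r c = D at *
  obtain ⟨A, hA⟩ : ∃ A : ℝ[X], A = Polynomial.C (1 / 2) * (N + D) := ⟨_, rfl⟩
  obtain ⟨S, hS⟩ : ∃ S : ℝ[X], S = Polynomial.C (1 / 2) * (N - D) := ⟨_, rfl⟩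
  have h2 : (Polynomial.C (1 / 2) : ℝ[X]) * 2 = 1 := by
    rw [← map_ofNat Polynomial.C 2, ← Polynomial.C_mul]; norm_num
  have hA0 : A.coeff 0 = 1 := by
    rw [hA, Polynomial.coeff_C_mul, Polynomial.coeff_add, n2, d2]; norm_num
  have hS0 : S.coeff 0 = 0 := by
    rw [hS, Polynomial.coeff_C_mul, Polynomial.coeff_sub, n2, d2]; norm_num
  have hN : N = A + S := by rw [hA, hS]; linear_combination -N * h2
  have hD : D = A - S := by rw [hA, hS]; linear_combination -D * h2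
  have hc : constantCoeff (A : ℝ⟦X⟧) ≠ 0 := by simp [hA0]
  obtain ⟨B, hB⟩ : ∃ B : ℝ⟦X⟧, B = (S : ℝ⟦X⟧) * (A : ℝ⟦X⟧)⁻¹ := ⟨_, rfl⟩
  have hAB : (A : ℝ⟦X⟧) * B = S := by
    rw [hB, mul_left_comm, PowerSeries.mul_inv_cancel _ hc, mul_one]
  refine ⟨A, S, B, ?_, hA0, ?_, hAB, by simp [hB, hS0], ?_⟩
  · exact hA ▸ (natDegree_C_mul_le _ _).trans ((natDegree_add_le _ _).trans (max_le n1 d1))
  · rw [hA, reflect_C_mul, reflect_add, n3, d3, hS, sub_eq_add_neg]
  · have hAne : (A : ℝ⟦X⟧) ≠ 0 := fun h0 => hc (by rw [h0, map_zero])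
    have hS' : d⁄dX ℝ (S : ℝ⟦X⟧) = A * d⁄dX ℝ B + B * d⁄dX ℝ (A : ℝ⟦X⟧) := by
      rw [← hAB, Derivation.leibniz, smul_eq_mul, smul_eq_mul]
    rw [PowerSeries.derivative_coe, PowerSeries.derivative_coe] at hS'
    rw [hN, hD, derivative_add, derivative_sub] at h
    push_cast at h
    have h3 : (2 : ℝ⟦X⟧) ≠ 0 := by
      have : (2 : ℝ⟦X⟧) = PowerSeries.C 2 := rfl
      rw [this]
      intro h0
      have := congrArg PowerSeries.constantCoeff h0
      simp at this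
    apply mul_left_cancel₀ (mul_ne_zero h3 (pow_ne_zero 2 hAne))
    rw [hS', ← hAB] at h
    linear_combination h

end series

/-- If the low moments are those of `X ^ (2 T + 1) * U (X ^ 4)`, then `U ≠ 0` and the coefficients
of `U ^ 3` are moments. -/
lemma cube_mom (T : ℕ) (c : ℕ → ℝ) (U : ℝ[X])
    (h : ∀ e ≤ 6 * T + 2, bb (3 * T) c e = (X ^ (2 * T + 1) * expand ℝ 4 U).coeff e) :
    U ≠ 0 ∧ ∀ f ≤ T, 3 * bb (3 * T) c (3 * (2 * T + 1) + 4 * f) = (U ^ 3).coeff f := by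
  obtain ⟨A, S, B, h1, h2, h3, h4, h5, h6⟩ := exists_quot (3 * T) c
  rw [show 2 * (3 * T) + 2 = 6 * T + 2 by ring] at h1 h3
  obtain ⟨k1, k2, k3⟩ := artanh5 (a := 2 * T) (by simp [bb]) h5 h6 (by
    rw [PowerSeries.X_pow_dvd_iff]
    intro m hm
    rw [PowerSeries.coeff_mk, h m (by omega), coeff_X_pow_mul', if_neg (by omega)])
  obtain ⟨P, hP⟩ : ∃ P : ℝ[X], P = X ^ (2 * T + 1) * expand ℝ 4 U := ⟨_, rfl⟩
  have hBP : ∀ e ≤ 6 * T + 2, PowerSeries.coeff e B = P.coeff e := fun e he => by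
    have := PowerSeries.X_pow_dvd_iff.1 k2 e (by omega)
    rw [map_sub, PowerSeries.coeff_mk, h e he, ← hP] at this
    linarith
  constructor
  · rintro rfl
    have a1 : (PowerSeries.X : PowerSeries ℝ) ^ (6 * T + 2 + 1) ∣ B :=
      PowerSeries.X_pow_dvd_iff.2 fun e he => by rw [hBP e (by omega), hP]; simp
    have a2 : S = 0 := eq_zero_of_X_pow_dvd ((dvd_coe_iff _ _).1 (h4 ▸ a1.mul_left _))
      (Nat.lt_succ_of_le (h3 ▸ natDegree_reflect_le' h1))
    have a3 : A = 0 := by rw [← reflect_reflect (N := 6 * T + 2) (p := A), h3, a2, reflect_zero]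
    simp [a3] at h2
  · intro f hf
    have a1 : PowerSeries.coeff (3 * (2 * T + 1) + 4 * f) B = 0 := by
      refine sym4 (M := 2 * T + 1) h1 h2 h3 h4 (fun e he h0 => ?_) (by omega)
      rw [hBP e he, hP, coeff_X_pow_mul', coeff_expand (by norm_num)] at h0
      by_contra hne
      exact h0 (by split_ifs with b1 b2 <;> first | rfl | omega)
    have a2 : (PowerSeries.X : PowerSeries ℝ) ^ (6 * T + 2 + 1) ∣ B - P :=
      PowerSeries.X_pow_dvd_iff.2 fun e he => by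
        rw [map_sub, hBP e (by omega), Polynomial.coeff_coe, sub_self]
    have a3 : (PowerSeries.X : PowerSeries ℝ) ^ (2 * T + 1) ∣ (P : PowerSeries ℝ) :=
      (dvd_coe_iff _ _).2 (hP ▸ dvd_mul_right _ _)
    have a4 : (PowerSeries.X : PowerSeries ℝ) ^ (6 * T + 2 + 1 + (2 * T + 1 + (2 * T + 1))) ∣
        B * B * B - (P : PowerSeries ℝ) ^ 3 := by
      rw [show B * B * B - (P : PowerSeries ℝ) ^ 3 = (B - P) * (B * B + B * P + P * P) by ring,
        pow_add, pow_add _ (2 * T + 1) (2 * T + 1)]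
      exact mul_dvd_mul a2 (dvd_add (dvd_add (mul_dvd_mul k1 k1) (mul_dvd_mul k1 a3))
        (mul_dvd_mul a3 a3))
    have a5 := PowerSeries.X_pow_dvd_iff.1 k3 (3 * (2 * T + 1) + 4 * f) (by omega)
    have a6 := PowerSeries.X_pow_dvd_iff.1 a4 (3 * (2 * T + 1) + 4 * f) (by omega)
    have a7 : P ^ 3 = X ^ (3 * (2 * T + 1)) * expand ℝ 4 (U ^ 3) := by
      rw [hP, map_pow]; ring
    rw [map_sub, ← Polynomial.coe_pow, Polynomial.coeff_coe, a7, add_comm _ (4 * f),
      coeff_X_pow_mul, coeff_expand_mul' (by norm_num), add_comm (4 * f)] at a6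
    simp only [map_sub, map_add, PowerSeries.coeff_mk, a1] at a5
    linarith

end Pool.Agent.Lib.MP_73cdf8_lc.One
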